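import Pool.Agent.Helper70.MD.Main

/-!
The minimum maximum degree triangulation problem for planar point sets is NP-hard under
polynomial time many-one reductions, already for the fixed degree bound 6 and for integer
coordinates of polynomial size.

The reduction: the tableau of a nondeterministic Turing machine gives a constraint satisfaction
problem, and this gives a CNF formula. The points lie on nested rings inside a large triangle; every
ring has one apex on the vertical axis and its other points lie on a parabola. In a triangulation of
maximum degree at most 6, a count of degrees with the Euler relation forces all the ring cycles to be
edges, and between two consecutive rings the triangulation is determined by a cyclic shift which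
obeys local visibility constraints; these constraints let signals travel along the rings, and they
simulate the formula.
-/

set_option autoImplicit false

namespace Pool.Agent.Results.MP_8b926c_lc.NPHard

open Pool.Agent.Helper70

/-- For every language `L` in NP there is a polynomial time computable map `f` from words to
instances (finite lists of points with rational coordinates, with a degree bound, written in
binary) such that `w ∈ L` if and only if the point set of `f w` has a triangulation whose vertex
degrees are at most the degree bound. Moreover the degree bound of `f w` is always 6, and the
coordinates are integers whose absolute values are bounded by a polynomial in the length of `w`. -/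
theorem result (L : Set (List Bool)) (hL : Helper68.NP.InNP L) :
    ∃ f : List Bool → MD.Inst,
      Nonempty (Turing.TM2ComputableInPolyTime (id : List Bool → List Bool) MD.encodeInst f) ∧
      (∀ w, (f w).k = 6) ∧
      (∃ d : ℕ, ∀ w, ∀ q ∈ (f w).pts, ∃ x y : ℤ, q = ((x : ℚ), (y : ℚ)) ∧
        |x| ≤ ((w.length : ℤ) + 2) ^ d ∧ |y| ≤ ((w.length : ℤ) + 2) ^ d) ∧
      ∀ w, w ∈ L ↔ (f w).Yes :=
  MD.np_hard L hL

end Pool.Agent.Results.MP_8b926c_lc.NPHard
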